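import Mathlib
import Pool.Agent.Work.MP_56aac4_co.Proof

namespace Pool.Agent.Results.MP_56aac4_co.MissingSpan

open Pool.Agent.Work.MP_56aac4_co

/-- For all `n ≥ 4` and `r ≥ n` the number `s = 3n + 2r - 2` lies in the range of the question
for `k = 3`, but no finite graph at all (in particular none of chromatic number `3`) has minimum
span `s`. -/
theorem result : ∀ n r : ℕ, 4 ≤ n → n ≤ r →
    ((r + 1) * (3 - 1) + 2 * (n - 1) ≤ 3 * n + 2 * r - 2 ∧
      3 * n + 2 * r - 2 ≤ (n + r) * 3 - (r + 1)) ∧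
    ∀ (V : Type) [Fintype V] [Nonempty V] (G : SimpleGraph V),
      sp r n G ≠ 3 * n + 2 * r - 2 := by
  intro n r hn hr
  refine ⟨⟨by omega, by omega⟩, ?_⟩
  intro V _ _ G
  exact sp_ne r n hn hr G

end Pool.Agent.Results.MP_56aac4_co.MissingSpan
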